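import Pool.Agent.Helper732.HN.Final
import Pool.Agent.Helper732.HN.ForceCH

set_option autoImplicit false

open Set Topology

namespace Pool.Agent.Results.MP_db8568_gt.ConsistentExample

open Pool.Agent.Helper732.HN (Diamond LocallyEuclidean CountablyParacompact)

/-!
A hereditarily normal Dowker 3-manifold from diamond, together with a forcing notion which forces
diamond over any ground model.

The manifold is the union of an increasing chain of open 3-manifolds `M α`, `α < ω₁`, where `M 0` is
the 3-space and `M (α+1)` is obtained from `M α` by attaching a closed ray (of level `l α ∈ ℕ`) to a
tube which goes to infinity.  A strip `E α` in `M α` keeps for each level `n` an end of the open set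
of the points of level at most `n`; the sets guessed by diamond which can be reached by this end on
the level `m` are kept reachable for ever and each later ray of level `≥ m` consists of limit points
of them.  So an unbounded set of points of level `m` accumulates at all points of level `≥ m` from
some stage on.  This gives both the hereditary normality and the failure of countable
paracompactness of the cover by the sets of the points of level at most `n`.
-/

/-- **Main theorem.**  (A) Some notion of forcing `P` of type `Type` forces, below every condition,
that `ω₁` is preserved and that diamond holds (a theorem on the explicit forcing relation).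
(B) Diamond implies that there is a Hausdorff space `M` in which every point has an open
neighbourhood homeomorphic to the Euclidean 3-space, such that every subspace of `M` is normal and
`M` is not countably paracompact. -/
theorem result :
    (∃ (P : Type) (_ : Preorder P), Nonempty P ∧ ∀ p : P,
      p ∈ Pool.Agent.Helper732.HN.ForceCH.OmegaOnePreserved P ∧
      p ∈ Pool.Agent.Helper732.HN.ForceCH.DiamondHolds P) ∧
    (Diamond → ∃ (M : Type) (_ : TopologicalSpace M), T2Space M ∧ LocallyEuclidean 3 M ∧
      (∀ Y : Set M, NormalSpace Y) ∧ ¬ CountablyParacompact M) := by
  refine ⟨?_, Pool.Agent.Helper732.HN.main⟩
  obtain ⟨P, hP, hne, h⟩ := Pool.Agent.Helper732.HN.ForceCH.exists_forcing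
  exact ⟨P, hP, hne, fun p => ⟨(h p).1, (h p).2.1⟩⟩

end Pool.Agent.Results.MP_db8568_gt.ConsistentExample
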